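import Mathlib

/-!
# Highly edge-connected 2-connected graphs without good orientations (MP_bdb63f_co)
-/

namespace Pool.Agent.R4.ST

open SimpleGraph

/-- An `(s,t)`-triple of the simple graph `G`: a linear order on the vertices together with two
edge-disjoint spanning trees `I`, `O` of `G`, such that every vertex other than `t` is joined by an
edge of `I` to a larger vertex and every vertex other than `s` is joined by an edge of `O` to a
smaller vertex. -/
def HasTriple {V : Type} (G : SimpleGraph V) (s t : V) : Prop :=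
  ∃ (_ : LinearOrder V) (I O : SimpleGraph V),
    I ≤ G ∧ O ≤ G ∧ I.IsTree ∧ O.IsTree ∧ Disjoint I.edgeSet O.edgeSet ∧
    (∀ v, v ≠ t → ∃ w, I.Adj v w ∧ v < w) ∧
    (∀ v, v ≠ s → ∃ w, O.Adj v w ∧ w < v)

/-- `G` is 2-connected: at least three vertices, connected, and no cut vertex. -/
def TwoConnected {V : Type} [Fintype V] (G : SimpleGraph V) : Prop :=
  3 ≤ Fintype.card V ∧ G.Connected ∧ ∀ w : V, (G.induce ({w}ᶜ : Set V)).Connected

/-- `G` is `L`-edge-connected: it stays connected after deleting fewer than `L` edges. -/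
def EdgeConn {V : Type} (L : ℕ) (G : SimpleGraph V) : Prop :=
  ∀ S : Finset (Sym2 V), S.card < L → (G.deleteEdges (S : Set (Sym2 V))).Connected

/-- Vertices of the construction. -/
inductive Vt (M : ℕ) where
  | k (c : Bool) (i : Fin M)
  | v (b : Bool)
  | d (b c : Bool) (i x : Fin M)
  deriving DecidableEq, Fintype

/-- Adjacency of the construction. -/
def adj {M : ℕ} : Vt M → Vt M → Prop
  | .k c i, .k c' j => c = c' ∧ i ≠ j
  | .v b, .d b' _ _ _ => b = b'
  | .d b' _ _ _, .v b => b = b'
  | .d b c i x, .d b' c' i' y => b = b' ∧ c = c' ∧ i = i' ∧ x ≠ y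
  | .d _ c i x, .k c' i' => c = c' ∧ i = i' ∧ x.val = 0
  | .k c' i', .d _ c i x => c = c' ∧ i = i' ∧ x.val = 0
  | _, _ => False

/-- The graph of the construction. -/
def G (M : ℕ) : SimpleGraph (Vt M) where
  Adj := adj
  symm := ⟨by
    intro a b h
    cases a <;> cases b <;> simp only [adj] at h ⊢ <;> grind⟩
  loopless := ⟨by
    intro a h
    cases a <;> simp [adj] at h⟩

variable {M L : ℕ}

/-- Two vertices with at least `L` common neighbours stay in the same component after deleting
fewer than `L` edges. -/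
theorem reach_common {V : Type} [DecidableEq V] {G : SimpleGraph V} {S : Finset (Sym2 V)}
    (hS : S.card < L) {a b : V} (hab : a ≠ b) (T : Finset V) (hT : L ≤ T.card)
    (h : ∀ c ∈ T, G.Adj a c ∧ G.Adj c b) :
    (G.deleteEdges (S : Set (Sym2 V))).Reachable a b := by
  by_contra hcon
  have key : ∀ c ∈ T, s(a, c) ∈ S ∨ s(c, b) ∈ S := by
    intro c hc
    by_contra hne
    push Not at hne
    apply hcon
    have h1 : (G.deleteEdges (S : Set (Sym2 V))).Adj a c := by
      rw [SimpleGraph.deleteEdges_adj]; exact ⟨(h c hc).1, by simpa using hne.1⟩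
    have h2 : (G.deleteEdges (S : Set (Sym2 V))).Adj c b := by
      rw [SimpleGraph.deleteEdges_adj]; exact ⟨(h c hc).2, by simpa using hne.2⟩
    exact h1.reachable.trans h2.reachable
  have hle : T.card ≤ S.card := by
    apply Finset.card_le_card_of_injOn (fun c => if s(a, c) ∈ S then s(a, c) else s(c, b))
    · intro c hc
      simp only []
      split_ifs with h1
      · exact h1
      · rcases key c hc with h2 | h2
        · exact absurd h2 h1
        · exact h2
    · intro c hc c' hc' heq
      have hac := (h c hc).1.ne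
      have hcb := (h c hc).2.ne
      have hac' := (h c' hc').1.ne
      have hcb' := (h c' hc').2.ne
      simp only [] at heq
      split_ifs at heq <;> simp only [Sym2.eq_iff] at heq <;> grind
  omega

theorem adj_kk {c : Bool} {i j : Fin M} (h : i ≠ j) : (G M).Adj (.k c i) (.k c j) := ⟨rfl, h⟩
theorem adj_vd (b c : Bool) (i x : Fin M) : (G M).Adj (.v b) (.d b c i x) := rfl
theorem adj_dd (b c : Bool) (i : Fin M) {x y : Fin M} (h : x ≠ y) :
    (G M).Adj (.d b c i x) (.d b c i y) := ⟨rfl, rfl, rfl, h⟩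
theorem adj_dk (b c : Bool) (i x : Fin M) (h : x.val = 0) :
    (G M).Adj (.d b c i x) (.k c i) := ⟨rfl, rfl, h⟩

theorem reach_kk {S : Finset (Sym2 (Vt M))} (hS : S.card < L) (hM : L + 2 ≤ M) (c : Bool)
    (i j : Fin M) : ((G M).deleteEdges (S : Set (Sym2 (Vt M)))).Reachable (.k c i) (.k c j) := by
  by_cases hij : i = j
  · subst hij; exact SimpleGraph.Reachable.refl _
  apply reach_common hS (by simpa using hij)
    (((Finset.univ.erase i).erase j).map ⟨fun x => Vt.k c x, fun x y h => by simpa using h⟩)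
  · rw [Finset.card_map, Finset.card_erase_of_mem, Finset.card_erase_of_mem]
    · simp; omega
    · simp
    · simp; exact fun h => hij h.symm
  · intro a ha
    simp only [Finset.mem_map, Finset.mem_erase, Finset.mem_univ, and_true,
      Function.Embedding.coeFn_mk] at ha
    obtain ⟨x, ⟨hxj, hxi⟩, rfl⟩ := ha
    exact ⟨adj_kk (Ne.symm hxi), adj_kk hxj⟩

theorem reach_vd {S : Finset (Sym2 (Vt M))} (hS : S.card < L) (hM : L + 2 ≤ M) (b c : Bool)
    (i x : Fin M) : ((G M).deleteEdges (S : Set (Sym2 (Vt M)))).Reachable (.v b) (.d b c i x) := by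
  apply reach_common hS (by simp)
    ((Finset.univ.erase x).map ⟨fun y => Vt.d b c i y, fun x y h => by simpa using h⟩)
  · rw [Finset.card_map, Finset.card_erase_of_mem]
    · simp; omega
    · simp
  · intro a ha
    simp only [Finset.mem_map, Finset.mem_erase, Finset.mem_univ, and_true,
      Function.Embedding.coeFn_mk] at ha
    obtain ⟨y, hy, rfl⟩ := ha
    exact ⟨adj_vd _ _ _ _, adj_dd _ _ _ hy⟩

theorem reach_vk {S : Finset (Sym2 (Vt M))} (hS : S.card < L) (hM : L + 2 ≤ M) (b c : Bool)
    (j : Fin M) : ((G M).deleteEdges (S : Set (Sym2 (Vt M)))).Reachable (.v b) (.k c j) := by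
  have hpos : 0 < M := by omega
  have : ∃ i : Fin M, s(Vt.d b c i ⟨0, hpos⟩, Vt.k c i) ∉ S := by
    by_contra hcon
    push Not at hcon
    have hle : (Finset.univ : Finset (Fin M)).card ≤ S.card := by
      apply Finset.card_le_card_of_injOn (fun i => s(Vt.d b c i ⟨0, hpos⟩, Vt.k c i))
      · intro i _; exact hcon i
      · intro i _ i' _ heq
        simp only [Sym2.eq_iff] at heq
        rcases heq with ⟨h1, h2⟩ | ⟨h1, h2⟩
        · simpa using h2
        · simp at h1
    simp at hle
    omega
  obtain ⟨i, hi⟩ := this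
  refine (reach_vd hS hM b c i ⟨0, hpos⟩).trans (SimpleGraph.Reachable.trans ?_ (reach_kk hS hM c i j))
  apply SimpleGraph.Adj.reachable
  rw [SimpleGraph.deleteEdges_adj]
  exact ⟨adj_dk _ _ _ _ rfl, by simpa using hi⟩

theorem edgeConn (hM : L + 2 ≤ M) : EdgeConn L (G M) := by
  intro S hS
  have hpos : 0 < M := by omega
  have hall : ∀ a : Vt M, ((G M).deleteEdges (S : Set (Sym2 (Vt M)))).Reachable (.v false) a := by
    have h2 : ((G M).deleteEdges (S : Set (Sym2 (Vt M)))).Reachable (.v false) (.v true) :=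
      (reach_vk hS hM false true ⟨0, hpos⟩).trans (reach_vk hS hM true true ⟨0, hpos⟩).symm
    intro a
    cases a with
    | k c i => exact reach_vk hS hM false c i
    | v b => cases b
             · exact SimpleGraph.Reachable.refl _
             · exact h2
    | d b c i x => cases b
                   · exact reach_vd hS hM false c i x
                   · exact h2.trans (reach_vd hS hM true c i x)
  haveI : Nonempty (Vt M) := ⟨.v false⟩
  exact ⟨fun a b => (hall a).symm.trans (hall b)⟩

/-- Reachability avoiding the vertex `w`. -/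
def RA {V : Type} (G : SimpleGraph V) (w a b : V) : Prop :=
  ∃ (ha : a ∈ ({w}ᶜ : Set V)) (hb : b ∈ ({w}ᶜ : Set V)),
    (G.induce ({w}ᶜ : Set V)).Reachable ⟨a, ha⟩ ⟨b, hb⟩

theorem RA.symm {V : Type} {G : SimpleGraph V} {w a b : V} (h : RA G w a b) : RA G w b a := by
  obtain ⟨ha, hb, h⟩ := h
  exact ⟨hb, ha, h.symm⟩

theorem RA.trans {V : Type} {G : SimpleGraph V} {w a b c : V} (h : RA G w a b)
    (h' : RA G w b c) : RA G w a c := by
  obtain ⟨ha, hb, h⟩ := h
  obtain ⟨hb', hc, h'⟩ := h'
  exact ⟨ha, hc, h.trans h'⟩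

theorem RA.refl {V : Type} {G : SimpleGraph V} {w a : V} (h : a ≠ w) : RA G w a a :=
  ⟨by simpa using h, by simpa using h, SimpleGraph.Reachable.refl _⟩

theorem RA.adj {V : Type} {G : SimpleGraph V} {w a b : V} (h : G.Adj a b) (ha : a ≠ w)
    (hb : b ≠ w) : RA G w a b :=
  ⟨by simpa using ha, by simpa using hb, SimpleGraph.Adj.reachable (by simpa using h)⟩

theorem noCut (hM : 1 ≤ M) (w : Vt M) : ((G M).induce ({w}ᶜ : Set (Vt M))).Connected := by
  have hpos : 0 < M := by omega
  let z : Fin M := ⟨0, hpos⟩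
  -- an untouched cluster
  obtain ⟨b0, hv0, hd0⟩ : ∃ b0 : Bool, Vt.v b0 ≠ w ∧ ∀ c i x, Vt.d b0 c i x ≠ w := by
    cases w with
    | k c i => exact ⟨false, by simp, by simp⟩
    | v b => exact ⟨!b, by simp, by simp⟩
    | d b c i x => exact ⟨!b, by simp, by simp⟩
  -- an untouched side
  obtain ⟨c0, hk0, hdc0⟩ : ∃ c0 : Bool, (∀ i, Vt.k c0 i ≠ w) ∧ ∀ b i x, Vt.d b c0 i x ≠ w := by
    cases w with
    | k c i => exact ⟨!c, by simp, by simp⟩
    | v b => exact ⟨false, by simp, by simp⟩
    | d b c i x => exact ⟨!c, by simp, by simp⟩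
  have hkall : ∀ c i, Vt.k c i ≠ w → RA (G M) w (Vt.k c i) (Vt.v b0) := by
    intro c i h
    exact (RA.adj (adj_dk b0 c i z rfl).symm h (hd0 _ _ _)).trans
      (RA.adj (adj_vd b0 c i z).symm (hd0 _ _ _) hv0)
  have hd0all : ∀ c i x, RA (G M) w (Vt.d b0 c i x) (Vt.v b0) := fun c i x =>
    RA.adj (adj_vd b0 c i x).symm (hd0 _ _ _) hv0
  have hvall : ∀ b, Vt.v b ≠ w → RA (G M) w (Vt.v b) (Vt.v b0) := by
    intro b h
    exact (RA.adj (adj_vd b c0 z z) h (hdc0 _ _ _)).trans
      ((RA.adj (adj_dk b c0 z z rfl) (hdc0 _ _ _) (hk0 _)).trans (hkall c0 z (hk0 _)))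
  have hall : ∀ a, a ≠ w → RA (G M) w a (Vt.v b0) := by
    intro a ha
    cases a with
    | k c i => exact hkall c i ha
    | v b => exact hvall b ha
    | d b c i x =>
      by_cases hvb : Vt.v b = w
      · -- go through the clique vertex
        have hk : Vt.k c i ≠ w := by rw [← hvb]; simp
        have hd : Vt.d b c i z ≠ w := by rw [← hvb]; simp
        by_cases hx : x = z
        · subst hx
          exact (RA.adj (adj_dk b c i z rfl) hd hk).trans (hkall c i hk)
        · exact (RA.adj (adj_dd b c i hx) ha hd).trans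
            ((RA.adj (adj_dk b c i z rfl) hd hk).trans (hkall c i hk))
      · exact (RA.adj (adj_vd b c i x).symm ha hvb).trans (hvall b hvb)
  haveI : Nonempty (({w}ᶜ : Set (Vt M))) := ⟨⟨Vt.v b0, by simpa using hv0⟩⟩
  refine ⟨?_⟩
  rintro ⟨a, ha⟩ ⟨b, hb⟩
  have h1 := (hall a (by simpa using ha)).trans (hall b (by simpa using hb)).symm
  obtain ⟨_, _, h⟩ := h1
  exact h

/-- The projection used to locate `s` and `t`. -/
def pr : Vt M → Option (Bool × Fin M)
  | .k c i => some (c, i)
  | .v _ => none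
  | .d _ c i _ => some (c, i)

/-- Key lemma: if `s`, `t` do not project to `(c, i)`, then neither `O`-edges down nor `I`-edges up
from `k c i` lead into the blobs. -/
theorem blob {s t : Vt M} (lo : LinearOrder (Vt M)) {I O : SimpleGraph (Vt M)}
    (hI : I ≤ G M) (hO : O ≤ G M) (hdis : Disjoint I.edgeSet O.edgeSet)
    (hup : ∀ v, v ≠ t → ∃ w, I.Adj v w ∧ v < w)
    (hdn : ∀ v, v ≠ s → ∃ w, O.Adj v w ∧ w < v) {c : Bool} {i : Fin M}
    (hs : pr s ≠ some (c, i)) (ht : pr t ≠ some (c, i)) (b : Bool) (x : Fin M) :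
    ¬ (I.Adj (.k c i) (.d b c i x) ∧ Vt.k c i < .d b c i x) ∧
    ¬ (O.Adj (.k c i) (.d b c i x) ∧ Vt.d b c i x < .k c i) := by
  classical
  have hM : 0 < M := lt_of_le_of_lt (Nat.zero_le _) x.2
  -- edges can't be in both
  have hboth : ∀ a b, I.Adj a b → O.Adj a b → False := by
    intro a b h1 h2
    exact Set.disjoint_left.mp hdis (show s(a, b) ∈ I.edgeSet from h1) (show s(a, b) ∈ O.edgeSet from h2)
  haveI : Nonempty (Fin M) := ⟨x⟩
  -- minimum and maximum of the blob
  obtain ⟨p, -, hp⟩ := Finset.exists_min_image (Finset.univ : Finset (Fin M))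
    (fun y => Vt.d b c i y) Finset.univ_nonempty
  obtain ⟨q, -, hq⟩ := Finset.exists_max_image (Finset.univ : Finset (Fin M))
    (fun y => Vt.d b c i y) Finset.univ_nonempty
  have hps : Vt.d b c i p ≠ s := by rintro rfl; exact hs rfl
  have hqt : Vt.d b c i q ≠ t := by rintro rfl; exact ht rfl
  obtain ⟨w, hw, hwlt⟩ := hdn _ hps
  obtain ⟨u, hu, hult⟩ := hup _ hqt
  have hwG : adj (Vt.d b c i p) w := hO hw
  have huG : adj (Vt.d b c i q) u := hI hu
  have hw' : w = .v b ∨ (w = .k c i ∧ p.val = 0) := by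
    cases w with
    | k c' i' => right; simp only [adj] at hwG; obtain ⟨rfl, rfl, h⟩ := hwG; exact ⟨rfl, h⟩
    | v b' => left; simp only [adj] at hwG; rw [hwG]
    | d b' c' i' y =>
      simp only [adj] at hwG
      obtain ⟨rfl, rfl, rfl, h⟩ := hwG
      exact absurd (hp y (Finset.mem_univ _)) (not_le.mpr hwlt)
  have hu' : u = .v b ∨ (u = .k c i ∧ q.val = 0) := by
    cases u with
    | k c' i' => right; simp only [adj] at huG; obtain ⟨rfl, rfl, h⟩ := huG; exact ⟨rfl, h⟩
    | v b' => left; simp only [adj] at huG; rw [huG]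
    | d b' c' i' y =>
      simp only [adj] at huG
      obtain ⟨rfl, rfl, rfl, h⟩ := huG
      exact absurd (hq y (Finset.mem_univ _)) (not_le.mpr hult)
  have hpq : Vt.d b c i p ≤ Vt.d b c i q := hp q (Finset.mem_univ _)
  -- the only edge to `k c i`
  have hx0 : ∀ {H : SimpleGraph (Vt M)}, H ≤ G M → H.Adj (.k c i) (.d b c i x) → x.val = 0 := by
    intro H hH h
    have : adj (Vt.k c i) (Vt.d b c i x) := hH h
    exact this.2.2
  constructor
  · rintro ⟨h1, h2⟩
    have hx := hx0 hI h1
    rcases hw' with rfl | ⟨rfl, hp0⟩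
    · rcases hu' with rfl | ⟨rfl, hq0⟩
      · exact absurd (lt_of_lt_of_le hwlt (hpq.trans hult.le)) (lt_irrefl _)
      · have : q = x := Fin.ext (by omega)
        subst this
        exact absurd (h2.trans hult) (lt_irrefl _)
    · have : p = x := Fin.ext (by omega)
      subst this
      exact hboth _ _ h1 hw.symm
  · rintro ⟨h1, h2⟩
    have hx := hx0 hO h1
    rcases hu' with rfl | ⟨rfl, hq0⟩
    · rcases hw' with rfl | ⟨rfl, hp0⟩
      · exact absurd (lt_of_lt_of_le hwlt (hpq.trans hult.le)) (lt_irrefl _)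
      · have : p = x := Fin.ext (by omega)
        subst this
        exact absurd (h2.trans hwlt) (lt_irrefl _)
    · have : q = x := Fin.ext (by omega)
      subst this
      exact hboth _ _ hu.symm h1

theorem noTriple (hM : 2 ≤ M) (s t : Vt M) : ¬ HasTriple (G M) s t := by
  classical
  rintro ⟨lo, I, O, hI, hO, -, -, hdis, hup, hdn⟩
  have hM0 : 0 < M := by omega
  haveI : Nonempty (Fin M) := ⟨⟨0, hM0⟩⟩
  -- for every side `c`, two distinct indices are hit
  have key : ∀ c : Bool, ∃ i j : Fin M, i ≠ j ∧ (pr s = some (c, i) ∨ pr t = some (c, i)) ∧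
      (pr s = some (c, j) ∨ pr t = some (c, j)) := by
    intro c
    obtain ⟨p, -, hp⟩ := Finset.exists_min_image (Finset.univ : Finset (Fin M))
      (fun y => Vt.k c y) Finset.univ_nonempty
    obtain ⟨q, -, hq⟩ := Finset.exists_max_image (Finset.univ : Finset (Fin M))
      (fun y => Vt.k c y) Finset.univ_nonempty
    refine ⟨p, q, ?_, ?_, ?_⟩
    · rintro rfl
      obtain ⟨r, hr⟩ : ∃ r : Fin M, r ≠ p := by
        by_cases h : p.val = 0
        · exact ⟨⟨1, by omega⟩, by intro h'; rw [← h'] at h; simp at h⟩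
        · exact ⟨⟨0, hM0⟩, by intro h'; apply h; rw [← h']⟩
      have h1 := hp r (Finset.mem_univ _)
      have h2 := hq r (Finset.mem_univ _)
      have h3 := le_antisymm h1 h2
      simp at h3
      exact hr h3.symm
    · by_contra hcon
      push Not at hcon
      obtain ⟨hs, ht⟩ := hcon
      have hks : Vt.k c p ≠ s := by rintro rfl; exact hs rfl
      obtain ⟨w, hw, hwlt⟩ := hdn _ hks
      have hwG : adj (Vt.k c p) w := hO hw
      cases w with
      | k c' j =>
        simp only [adj] at hwG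
        obtain ⟨rfl, -⟩ := hwG
        exact absurd (hp j (Finset.mem_univ _)) (not_le.mpr hwlt)
      | v b => simp only [adj] at hwG
      | d b c' j x =>
        simp only [adj] at hwG
        obtain ⟨rfl, rfl, -⟩ := hwG
        exact (blob lo hI hO hdis hup hdn hs ht b x).2 ⟨hw, hwlt⟩
    · by_contra hcon
      push Not at hcon
      obtain ⟨hs, ht⟩ := hcon
      have hkt : Vt.k c q ≠ t := by rintro rfl; exact ht rfl
      obtain ⟨w, hw, hwlt⟩ := hup _ hkt
      have hwG : adj (Vt.k c q) w := hI hw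
      cases w with
      | k c' j =>
        simp only [adj] at hwG
        obtain ⟨rfl, -⟩ := hwG
        exact absurd (hq j (Finset.mem_univ _)) (not_le.mpr hwlt)
      | v b => simp only [adj] at hwG
      | d b c' j x =>
        simp only [adj] at hwG
        obtain ⟨rfl, rfl, -⟩ := hwG
        exact (blob lo hI hO hdis hup hdn hs ht b x).1 ⟨hw, hwlt⟩
  obtain ⟨i, j, hij, h1, h2⟩ := key false
  obtain ⟨i', j', hij', h1', h2'⟩ := key true
  grind

theorem card_ge (hM : 1 ≤ M) : 3 ≤ Fintype.card (Vt M) := by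
  let z : Fin M := ⟨0, by omega⟩
  have h : ({Vt.v false, Vt.v true, Vt.k false z} : Finset (Vt M)).card = 3 := by
    rw [Finset.card_insert_of_notMem, Finset.card_insert_of_notMem, Finset.card_singleton]
    · simp
    · simp
  rw [← h]
  exact Finset.card_le_univ _

theorem main (L : ℕ) : ∃ (V : Type) (_ : Fintype V) (G : SimpleGraph V),
    TwoConnected G ∧ EdgeConn L G ∧ ∀ s t : V, ¬ HasTriple G s t := by
  refine ⟨Vt (L + 3), inferInstance, G (L + 3), ⟨card_ge (by omega), ?_, noCut (by omega)⟩,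
    edgeConn (by omega), noTriple (by omega)⟩
  have := (edgeConn (M := L + 3) (L := 1) (by omega)) ∅ (by simp)
  simpa using this

end Pool.Agent.R4.ST
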